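import Pool.Agent.N219.Sep.Main

/-!
# Eight points in general position in space are separated by three planes
-/

namespace Pool.Agent.Results.MP_a0a64f_co.ThreePlanes

open Pool.Agent.N219.Sep

/-- For every set `P` of 8 points in `ℝ³`, no four of them on a common plane, there are three planes
avoiding `P` such that each of the eight sign patterns is the pattern of exactly one point of `P`
(`Separates`), and each connected component of the complement of the three planes contains exactly
one point of `P`. -/
theorem result (P : Finset (EuclideanSpace ℝ (Fin 3))) (hcard : P.card = 8) (hP : GenPos P) :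
    ∃ (n : Fin 3 → EuclideanSpace ℝ (Fin 3)) (c : Fin 3 → ℝ), Separates n c P ∧
      ∀ x ∈ compl3 n c, ∃! p, p ∈ P ∧ p ∈ connectedComponentIn (compl3 n c) x := by
  obtain ⟨n, c, h⟩ := main hcard hP
  exact ⟨n, c, h, compartments h⟩

end Pool.Agent.Results.MP_a0a64f_co.ThreePlanes
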